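import Pool.Agent.Helper43.NFB.Count
import Pool.Agent.Helper43.NFB.Ultra
import Pool.Agent.Helper43.NFB.Nil

set_option autoImplicit false

namespace Pool.Agent.Results.MP_8ea9e7_al.Full

open FirstOrder FirstOrder.Language

universe u v

section Defs

variable (L : FirstOrder.Language.{0, 0})

/-- `θ` is a congruence of the algebra `B`. -/
def IsCon (B : Type u) [L.Structure B] (θ : B → B → Prop) : Prop :=
  Equivalence θ ∧ ∀ (n : ℕ) (f : L.Functions n) (x y : Fin n → B),
    (∀ i, θ (x i) (y i)) → θ (Structure.funMap f x) (Structure.funMap f y)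

/-- The term condition: `α` centralizes `β` modulo `δ`. -/
def Centralizes (B : Type u) [L.Structure B] (α β δ : B → B → Prop) : Prop :=
  ∀ (m n : ℕ) (t : L.Term (Fin m ⊕ Fin n)) (a b : Fin m → B) (c d : Fin n → B),
    (∀ i, α (a i) (b i)) → (∀ j, β (c j) (d j)) →
    δ (t.realize (Sum.elim a c)) (t.realize (Sum.elim a d)) →
    δ (t.realize (Sum.elim b c)) (t.realize (Sum.elim b d))

/-- The term-condition commutator `[α, β]`: the least congruence modulo which `α`
centralizes `β`. -/
def commutator (B : Type u) [L.Structure B] (α β : B → B → Prop) : B → B → Prop :=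
  fun x y => ∀ δ : B → B → Prop, IsCon L B δ → Centralizes L B α β δ → δ x y

/-- The lower central series: `gam 0` is the full congruence and
`gam (k + 1) = [1, gam k]`. -/
def gam (B : Type u) [L.Structure B] : ℕ → B → B → Prop
  | 0 => fun _ _ => True
  | k + 1 => commutator L B (fun _ _ => True) (gam B k)

/-- `B` is nilpotent of class at most `k`: the `k`-th iterated commutator is the identity
congruence. -/
def NilpotentOfClassLE (B : Type u) [L.Structure B] (k : ℕ) : Prop :=
  ∀ x y : B, gam L B k x y → x = y

/-- `B` belongs to `HSP(A)`: it is the image of a subalgebra `S` of a power `A ^ I` of `A` under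
a surjective homomorphism `φ`. -/
def InHSP (A : Type u) [L.Structure A] (B : Type v) [L.Structure B] : Prop :=
  ∃ (I : Type (max u v)) (S : Set (I → A))
    (hS : ∀ (n : ℕ) (f : L.Functions n) (x : Fin n → I → A), (∀ j, x j ∈ S) →
      (fun i => Structure.funMap f fun j => x j i) ∈ S) (φ : S → B),
    Function.Surjective φ ∧
    ∀ (n : ℕ) (f : L.Functions n) (x : Fin n → S),
      φ ⟨fun i => Structure.funMap f fun j => (x j).1 i,
        hS n f (fun j => (x j).1) fun j => (x j).2⟩ = Structure.funMap f fun j => φ (x j)

/-- Any two congruences of `B` permute. -/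
def CongruencePermutable (B : Type u) [L.Structure B] : Prop :=
  ∀ α β : B → B → Prop, IsCon L B α → IsCon L B β →
    ∀ x y : B, (∃ z, α x z ∧ β z y) ↔ (∃ z, β x z ∧ α z y)

/-- `B` is subdirectly irreducible: it has at least two elements and a least congruence `μ`
among the congruences other than the identity congruence. -/
def SubdirectlyIrreducible (B : Type u) [L.Structure B] : Prop :=
  Nontrivial B ∧ ∃ μ : B → B → Prop, IsCon L B μ ∧ (∃ x y, μ x y ∧ x ≠ y) ∧
    ∀ θ : B → B → Prop, IsCon L B θ → (∃ x y, θ x y ∧ x ≠ y) → ∀ x y, μ x y → θ x y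

end Defs

section General

variable {L : FirstOrder.Language.{0, 0}}

/-- Members of `HSP(A)` satisfy the identities of `A`. -/
theorem InHSP.ident {A : Type u} [L.Structure A] {B : Type v} [L.Structure B]
    (h : InHSP L A B) {α : Type} (t s : L.Term α)
    (hts : ∀ v : α → A, t.realize v = s.realize v) (w : α → B) :
    t.realize w = s.realize w := by
  obtain ⟨I, S, hS, φ, hφ, hhom⟩ := h
  choose g hg using hφ
  let x : α → S := fun j => g (w j)
  have key : ∀ r : L.Term α, ∃ h : (fun i => r.realize fun j => (x j).1 i) ∈ S,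
      φ ⟨fun i => r.realize fun j => (x j).1 i, h⟩ = r.realize w := by
    intro r
    induction r with
    | var j => exact ⟨(x j).2, hg (w j)⟩
    | func f ts ih =>
      choose h1 h2 using ih
      refine ⟨hS _ f (fun k i => (ts k).realize fun j => (x j).1 i) h1, ?_⟩
      have h3 := hhom _ f (fun k => ⟨fun i => (ts k).realize fun j => (x j).1 i, h1 k⟩)
      simp only [h2] at h3
      exact h3
  obtain ⟨h1, h2⟩ := key t
  obtain ⟨h3, h4⟩ := key s
  rw [← h2, ← h4]
  congr 2
  funext i
  exact hts _

/-- The theorem of Birkhoff: an algebra which satisfies the identities of the nonempty algebra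
`A` belongs to `HSP(A)`. -/
theorem inHSP_of_ident {A B : Type} [L.Structure A] [L.Structure B] (a0 : A)
    (h : ∀ (n : ℕ) (t s : L.Term (Fin n)), (∀ v : Fin n → A, t.realize v = s.realize v) →
      ∀ w : Fin n → B, t.realize w = s.realize w) : InHSP L A B := by
  classical
  have h' : ∀ t s : L.Term B, (∀ v : B → A, t.realize v = s.realize v) →
      t.realize (id : B → B) = s.realize (id : B → B) := by
    intro t s hts
    let F : Finset B := t.varFinset ∪ s.varFinset
    let e : F ≃ Fin F.card := F.equivFin
    let ft : t.varFinset → Fin F.card := fun a => e ⟨a.1, Finset.mem_union_left _ a.2⟩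
    let fs : s.varFinset → Fin F.card := fun a => e ⟨a.1, Finset.mem_union_right _ a.2⟩
    have h1 := h F.card (t.restrictVar ft) (s.restrictVar fs) (by
      intro v
      rw [Term.realize_restrictVar (fun b => if hb : b ∈ F then v (e ⟨b, hb⟩) else a0),
        Term.realize_restrictVar (fun b => if hb : b ∈ F then v (e ⟨b, hb⟩) else a0)]
      · exact hts _
      · rintro ⟨a, ha⟩
        have ha' : a ∈ F := Finset.mem_union_right _ ha
        simp [fs, ha']
      · rintro ⟨a, ha⟩
        have ha' : a ∈ F := Finset.mem_union_left _ ha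
        simp [ft, ha']) (fun i => (e.symm i).1)
    rw [Term.realize_restrictVar (id : B → B), Term.realize_restrictVar (id : B → B)] at h1
    · exact h1
    · rintro ⟨a, ha⟩
      simp [fs]
    · rintro ⟨a, ha⟩
      simp [ft]
  let S : Set ((B → A) → A) := {g | ∃ t : L.Term B, g = fun v => t.realize v}
  have hS : ∀ (n : ℕ) (f : L.Functions n) (x : Fin n → (B → A) → A), (∀ j, x j ∈ S) →
      (fun i => Structure.funMap f fun j => x j i) ∈ S := by
    intro n f x hx
    choose ts hts using hx
    refine ⟨Term.func f ts, ?_⟩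
    funext v
    simp [hts, Term.realize_func]
  refine ⟨B → A, S, hS, fun g => (Classical.choose g.2).realize (id : B → B), ?_, ?_⟩
  · intro b
    refine ⟨⟨fun v => v b, ⟨Term.var b, rfl⟩⟩, ?_⟩
    have h1 := Classical.choose_spec
      (⟨Term.var b, rfl⟩ : ∃ t : L.Term B, (fun v : B → A => v b) = fun v => t.realize v)
    exact (h' _ (Term.var b) fun v => (congrFun h1 v).symm).trans rfl
  · intro n f x
    have h1 : ∀ j, (x j).1 = fun v => (Classical.choose (x j).2).realize v :=
      fun j => Classical.choose_spec (x j).2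
    have h2 : ∃ t : L.Term B, (fun i => Structure.funMap f fun j => (x j).1 i) =
        fun v : B → A => t.realize v := hS n f (fun j => (x j).1) fun j => (x j).2
    have h3 := Classical.choose_spec h2
    refine (h' _ (Term.func f fun j => Classical.choose (x j).2) fun v => ?_).trans ?_
    · refine (congrFun h3 v).symm.trans ?_
      rw [Term.realize_func]
      congr 1
      funext j
      exact congrFun (h1 j) v
    · rw [Term.realize_func]

/-- Congruences are compatible with terms. -/
theorem IsCon.term {B : Type u} [L.Structure B] {θ : B → B → Prop} (h : IsCon L B θ)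
    {α : Type} (t : L.Term α) (x y : α → B) (hxy : ∀ i, θ (x i) (y i)) :
    θ (t.realize x) (t.realize y) := by
  induction t with
  | var i => exact hxy i
  | func f ts ih => exact h.2 _ f _ _ ih

/-- A term that is a Mal'cev term makes congruences permute. -/
theorem permutable_of_term {B : Type u} [L.Structure B] (t : L.Term (Fin 3))
    (h1 : ∀ x z : B, t.realize ![x, x, z] = z) (h2 : ∀ x z : B, t.realize ![x, z, z] = x) :
    CongruencePermutable L B := by
  have key : ∀ α β : B → B → Prop, IsCon L B α → IsCon L B β → ∀ x y : B,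
      (∃ z, α x z ∧ β z y) → (∃ z, β x z ∧ α z y) := by
    rintro α β hα hβ x y ⟨z, hxz, hzy⟩
    refine ⟨t.realize ![x, z, y], ?_, ?_⟩
    · have h3 := hβ.term t ![x, z, z] ![x, z, y] (by
        intro i
        fin_cases i
        · exact hβ.1.refl _
        · exact hβ.1.refl _
        · exact hzy)
      rwa [h2] at h3
    · have h3 := hα.term t ![x, z, y] ![z, z, y] (by
        intro i
        fin_cases i
        · exact hxz
        · exact hα.1.refl _
        · exact hα.1.refl _)
      rwa [h1] at h3
  intro α β hα hβ x y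
  exact ⟨key α β hα hβ x y, key β α hβ hα x y⟩

theorem permutable_of_ident {A : Type u} [L.Structure A] {B : Type v} [L.Structure B]
    (hB : InHSP L A B) (t : L.Term (Fin 3))
    (h1 : ∀ x z : A, t.realize ![x, x, z] = z) (h2 : ∀ x z : A, t.realize ![x, z, z] = x) :
    CongruencePermutable L B := by
  refine permutable_of_term t ?_ ?_
  · intro x z
    have h3 := hB.ident (α := Fin 2) (t.relabel ![0, 0, 1]) (Term.var 1) (by
      intro v
      rw [Term.realize_relabel]
      have h4 : v ∘ ![0, 0, 1] = ![v 0, v 0, v 1] := by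
        funext i
        fin_cases i <;> rfl
      rw [h4, h1]
      rfl) ![x, z]
    rw [Term.realize_relabel] at h3
    have h4 : (![x, z] : Fin 2 → B) ∘ ![0, 0, 1] = ![x, x, z] := by
      funext i
      fin_cases i <;> rfl
    rw [h4] at h3
    exact h3
  · intro x z
    have h3 := hB.ident (α := Fin 2) (t.relabel ![0, 1, 1]) (Term.var 0) (by
      intro v
      rw [Term.realize_relabel]
      have h4 : v ∘ ![0, 1, 1] = ![v 0, v 1, v 1] := by
        funext i
        fin_cases i <;> rfl
      rw [h4, h2]
      rfl) ![x, z]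
    rw [Term.realize_relabel] at h3
    have h4 : (![x, z] : Fin 2 → B) ∘ ![0, 1, 1] = ![x, z, z] := by
      funext i
      fin_cases i <;> rfl
    rw [h4] at h3
    exact h3

/-- A central series bounds the lower central series. -/
theorem gam_le {B : Type u} [L.Structure B] (θ : ℕ → B → B → Prop) (k : ℕ)
    (h0 : ∀ x y, θ 0 x y) (hc : ∀ i, IsCon L B (θ i))
    (hz : ∀ i, i < k → Centralizes L B (fun _ _ => True) (θ i) (θ (i + 1))) :
    ∀ i, i ≤ k → ∀ x y, gam L B i x y → θ i x y := by
  intro i
  induction i with
  | zero => exact fun _ x y _ => h0 x y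
  | succ i ih =>
    intro hi x y hxy
    refine hxy (θ (i + 1)) (hc (i + 1)) ?_
    intro m n t a b c d hab hcd
    exact hz i hi m n t a b c d hab fun j => ih (Nat.le_of_succ_le hi) _ _ (hcd j)

end General

open Pool.Agent.Helper43.NFB Filter

/-- There are a finite signature and an algebra `A` with 36 elements that is nilpotent of class
at most 3 and generates a congruence permutable variety `V = HSP(A)` such that every finite set
of first-order sentences which is true in all subdirectly irreducible members of `V` is true in a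
finite subdirectly irreducible algebra that is not in `V`. In particular no finite set of
sentences axiomatises the class of the subdirectly irreducible members of `V`. -/
theorem result : ∃ (L : FirstOrder.Language.{0, 0}) (A : Type) (_ : L.Structure A),
    Finite (Σ n, L.Functions n) ∧ (∀ n, IsEmpty (L.Relations n)) ∧ Nat.card A = 36 ∧
    NilpotentOfClassLE L A 3 ∧
    (∀ (B : Type v) [L.Structure B], InHSP L A B → CongruencePermutable L B) ∧
    (¬ ∃ T : L.Theory, T.Finite ∧ ∀ (B : Type) [L.Structure B] [Nonempty B],
      (Theory.Model B T ↔ (InHSP L A B ∧ SubdirectlyIrreducible L B))) ∧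
    ∀ T : L.Theory, T.Finite →
      (∀ (B : Type) [L.Structure B], InHSP L A B → SubdirectlyIrreducible L B →
        Theory.Model B T) →
      ∃ (B : Type) (_ : L.Structure B), Finite B ∧ Theory.Model B T ∧
        SubdirectlyIrreducible L B ∧ ¬ InHSP L A B := by
  let SA : LL.Structure AA := mkS OA
  let SM : ∀ k : ℕ, LL.Structure (CC (3 * k + 1)) := fun k => mkS (OC (3 * k + 1))
  -- the strong form
  have main : ∀ T : LL.Theory, T.Finite →
      (∀ (B : Type) [LL.Structure B], InHSP LL AA B → SubdirectlyIrreducible LL B →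
        Theory.Model B T) →
      ∃ (B : Type) (_ : LL.Structure B), Finite B ∧ Theory.Model B T ∧
        SubdirectlyIrreducible LL B ∧ ¬ InHSP LL AA B := by
    intro T hT hmod
    let M : ℕ → Type := fun k => CC (3 * k + 1)
    let u : Ultrafilter ℕ := hyperfilter ℕ
    have hSI : SI (ops (PP M u)) (mkP M u fun k => ee (3 * k + 1)) :=
      SI_ultra M u _ fun k => SI_C (3 * k + 1)
    have hP : Theory.Model (PP M u) T := by
      refine hmod (PP M u) ?_ ?_
      · refine inHSP_of_ident (0 : AA) ?_
        refine (var_iff (A := AA) (B := PP M u)).2 ?_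
        intro N t s hts
        refine ident_ultra M u t s ?_
        have h1 : ∀ᶠ k in (u : Filter ℕ), N < 3 * k + 1 := by
          have h2 : ∀ᶠ k in atTop, N < 3 * k + 1 := by
            filter_upwards [eventually_ge_atTop N] with k hk
            omega
          rw [← Nat.cofinite_eq_atTop] at h2
          exact hyperfilter_le_cofinite h2
        exact h1.mono fun k hk => holds_C hk t s hts
      · refine ⟨hSI.nontrivial, mono _ _, ⟨hSI.mono_equiv,
          (compat_iff _).2 hSI.mono_compat⟩, ⟨_, _, Or.inr rfl,
            hSI.ene (mkP M u fun k => ee (3 * k + 1))⟩, ?_⟩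
        rintro θ ⟨hθ, cθ⟩ ⟨x, y, hxy, hne⟩ z w hzw
        exact hSI.least θ hθ ((compat_iff θ).1 cθ) hxy hne z w hzw
    have hne : ∀ k, Nonempty (M k) := fun k => ⟨ee (3 * k + 1)⟩
    have hk : ∀ᶠ k in (u : Filter ℕ), ∀ φ ∈ T, Sentence.Realize (M k) φ := by
      rw [eventually_all_finite hT]
      intro φ hφ
      exact (Ultraproduct.sentence_realize φ).1 (hP.realize_of_mem φ hφ)
    obtain ⟨k, hk⟩ := hk.exists
    refine ⟨CC (3 * k + 1), SM k, inferInstance, ⟨hk⟩, ?_, ?_⟩
    · have hSC : SI (OC (3 * k + 1)) (ee (3 * k + 1)) := SI_C (3 * k + 1)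
      refine ⟨hSC.nontrivial, mono (OC (3 * k + 1)) (ee (3 * k + 1)), ⟨hSC.mono_equiv,
          (compat_iff (B := CC (3 * k + 1)) _).2 hSC.mono_compat⟩, ⟨_, _, Or.inr rfl,
            hSC.ene (ee (3 * k + 1))⟩, ?_⟩
      rintro θ ⟨hθ, cθ⟩ ⟨x, y, hxy, hne⟩ z w hzw
      exact hSC.least θ hθ ((compat_iff (B := CC (3 * k + 1)) θ).1 cθ) hxy hne z w hzw
    · intro hC
      have hvar : Var OA (OC (3 * k + 1)) :=
        (var_iff (A := AA) (B := CC (3 * k + 1))).1 fun n t s hts w => hC.ident t s hts w
      exact not_ident_C k 0 (hvar _ _ _ (ident_A _ 0))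
  refine ⟨LL, AA, SA, finite_functions, fun n => inferInstanceAs (IsEmpty Empty), ?_, ?_, ?_, ?_,
    main⟩
  · simp [AA]
  · intro x y hxy
    refine gam_le (L := LL) th 3 (fun _ _ => trivial)
      (fun i => ⟨th_equiv i, (compat_iff (B := AA) (th i)).2 (th_compat i)⟩) ?_ 3 le_rfl x y hxy
    intro i hi m n t a b c d _ hcd
    obtain ⟨t', ht'⟩ := exists_tm t
    rw [ht', ht', ht', ht']
    exact term_condition i hi t' a b c d hcd
  · intro B SB hB
    -- the Mal'cev term `x + 5 y + z`
    refine permutable_of_ident hB
      (Tm.toTerm (.add (sbT (.var 0) (.var 1)) (.var 2) : Tm (Fin 3))) ?_ ?_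
    · intro x z
      rw [Tm.realize_toTerm]
      change sb OA x x + z = z
      rw [sb_A, sub_self, zero_add]
    · intro x z
      rw [Tm.realize_toTerm]
      change sb OA x z + z = x
      rw [sb_A, sub_add_cancel]
  · rintro ⟨T, hT, hmod⟩
    obtain ⟨B, SB, -, hB, hSI, hV⟩ := main T hT (fun B SB hV hSI => by
      have := hSI.1
      exact (hmod B).2 ⟨hV, hSI⟩)
    have := hSI.1
    exact hV ((hmod B).1 hB).1

end Pool.Agent.Results.MP_8ea9e7_al.Full
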